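import Mathlib

/-!
Queens graph colourings: product theorem with toroidal boards and the reduction to boards whose
order is coprime to `5 * 31 * 61` or to `13 * 79 * 157`.
-/

set_option autoImplicit false

namespace Pool.Agent.W_MP_5f6f90_co_helper62

/-- `f` is a proper colouring of the `n x n` queens graph with colours `0, ..., n - 1`. -/
def IsCol (n : ℕ) (f : ℕ → ℕ → ℕ) : Prop :=
  (∀ x y : ℕ, x < n → y < n → f x y < n) ∧
  (∀ x y x' y' : ℕ, x < n → y < n → x' < n → y' < n → f x y = f x' y' →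
    (x = x' ∨ y = y' ∨ (x : ℤ) - x' = (y : ℤ) - y' ∨ (x : ℤ) - x' = (y' : ℤ) - y) →
    x = x' ∧ y = y')

def Col (n : ℕ) : Prop := ∃ f : ℕ → ℕ → ℕ, IsCol n f

theorem Col.colorable {n : ℕ} (h : Col n) :
    (SimpleGraph.fromRel (fun p q : Fin n × Fin n =>
        p.1 = q.1 ∨ p.2 = q.2 ∨
        ((p.1 : ℕ) : ℤ) - ((q.1 : ℕ) : ℤ) = ((p.2 : ℕ) : ℤ) - ((q.2 : ℕ) : ℤ) ∨
        ((p.1 : ℕ) : ℤ) - ((q.1 : ℕ) : ℤ) = ((q.2 : ℕ) : ℤ) - ((p.2 : ℕ) : ℤ))).Colorable n := by
  obtain ⟨f, hf1, hf2⟩ := h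
  have key : ∀ p q : Fin n × Fin n, p ≠ q → f p.1 p.2 = f q.1 q.2 →
      ¬ (p.1 = q.1 ∨ p.2 = q.2 ∨
        ((p.1 : ℕ) : ℤ) - ((q.1 : ℕ) : ℤ) = ((p.2 : ℕ) : ℤ) - ((q.2 : ℕ) : ℤ) ∨
        ((p.1 : ℕ) : ℤ) - ((q.1 : ℕ) : ℤ) = ((q.2 : ℕ) : ℤ) - ((p.2 : ℕ) : ℤ)) := by
    rintro ⟨x, y⟩ ⟨x', y'⟩ hne hcol hadj
    have := hf2 x y x' y' x.2 y.2 x'.2 y'.2 hcol (by
      rcases hadj with h | h | h | h
      · exact Or.inl (by exact congrArg Fin.val h)
      · exact Or.inr (Or.inl (by exact congrArg Fin.val h))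
      · exact Or.inr (Or.inr (Or.inl h))
      · exact Or.inr (Or.inr (Or.inr h)))
    exact hne (Prod.ext (Fin.ext this.1) (Fin.ext this.2))
  refine ⟨SimpleGraph.Coloring.mk (fun p => (⟨f p.1 p.2, hf1 _ _ p.1.2 p.2.2⟩ : Fin n)) ?_⟩
  intro p q hpq hcol
  rw [SimpleGraph.fromRel_adj] at hpq
  have hcol' : f p.1 p.2 = f q.1 q.2 := congrArg Fin.val hcol
  rcases hpq.2 with h | h
  · exact key p q hpq.1 hcol' h
  · exact key q p hpq.1.symm hcol'.symm h

/-- The product theorem: a board of order `a` times a toroidal board of order `t`. -/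
theorem Col.mul {a t : ℕ} (h : Col a) (ht : Nat.Coprime t 6) : Col (a * t) := by
  obtain ⟨f, hf1, hf2⟩ := h
  have ht0 : 0 < t := by
    rcases Nat.eq_zero_or_pos t with h0 | h0
    · subst h0; norm_num at ht
    · exact h0
  have ht2 : IsCoprime (2 : ℤ) (t : ℤ) := by
    have h6 : IsCoprime (t : ℤ) (6 : ℤ) := by
      have := Nat.isCoprime_iff_coprime.2 ht
      exact_mod_cast this
    exact (IsCoprime.of_isCoprime_of_dvd_right h6 (by norm_num)).symm
  have ht3 : IsCoprime (3 : ℤ) (t : ℤ) := by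
    have h6 : IsCoprime (t : ℤ) (6 : ℤ) := by
      have := Nat.isCoprime_iff_coprime.2 ht
      exact_mod_cast this
    exact (IsCoprime.of_isCoprime_of_dvd_right h6 (by norm_num)).symm
  -- two residues that are congruent mod t coincide
  have small : ∀ u w : ℕ, u < t → w < t → (t : ℤ) ∣ (u : ℤ) - w → u = w := by
    intro u w hu hw hd
    have h1 : (u : ℤ) ≡ w [ZMOD t] := by
      rw [Int.modEq_iff_dvd]
      have := (dvd_neg.2 hd)
      rwa [neg_sub] at this
    have h2 : u ≡ w [MOD t] := Int.natCast_modEq_iff.1 h1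
    exact Nat.ModEq.eq_of_lt_of_lt h2 hu hw
  refine ⟨fun x y => t * f (x / t) (y / t) + (2 * (x % t) + y % t) % t, ?_, ?_⟩
  · intro x y hx hy
    have h1 : f (x / t) (y / t) < a :=
      hf1 _ _ (Nat.div_lt_of_lt_mul (by rwa [Nat.mul_comm] at hx))
        (Nat.div_lt_of_lt_mul (by rwa [Nat.mul_comm] at hy))
    have h2 : (2 * (x % t) + y % t) % t < t := Nat.mod_lt _ ht0
    calc t * f (x / t) (y / t) + (2 * (x % t) + y % t) % t
        < t * f (x / t) (y / t) + t := by omega
      _ = t * (f (x / t) (y / t) + 1) := by ring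
      _ ≤ t * a := Nat.mul_le_mul_left _ h1
      _ = a * t := Nat.mul_comm _ _
  · intro x y x' y' hx hy hx' hy' hcol hadj
    simp only at hcol
    have hX : x / t < a := Nat.div_lt_of_lt_mul (by rwa [Nat.mul_comm] at hx)
    have hY : y / t < a := Nat.div_lt_of_lt_mul (by rwa [Nat.mul_comm] at hy)
    have hX' : x' / t < a := Nat.div_lt_of_lt_mul (by rwa [Nat.mul_comm] at hx')
    have hY' : y' / t < a := Nat.div_lt_of_lt_mul (by rwa [Nat.mul_comm] at hy')
    have hr : (2 * (x % t) + y % t) % t = (2 * (x' % t) + y' % t) % t := by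
      have := congrArg (fun z => z % t) hcol
      simpa [Nat.add_mod, Nat.mul_mod] using this
    have hq : f (x / t) (y / t) = f (x' / t) (y' / t) := by
      have h1 : (t * f (x / t) (y / t) + (2 * (x % t) + y % t) % t) / t =
          (t * f (x' / t) (y' / t) + (2 * (x' % t) + y' % t) % t) / t := by rw [hcol]
      rw [Nat.mul_add_div ht0, Nat.mul_add_div ht0, Nat.div_eq_of_lt (Nat.mod_lt _ ht0),
        Nat.div_eq_of_lt (Nat.mod_lt _ ht0)] at h1
      simpa using h1
    have ex : (x : ℤ) = t * (x / t : ℕ) + (x % t : ℕ) := by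
      exact_mod_cast (Nat.div_add_mod x t).symm
    have ey : (y : ℤ) = t * (y / t : ℕ) + (y % t : ℕ) := by
      exact_mod_cast (Nat.div_add_mod y t).symm
    have ex' : (x' : ℤ) = t * (x' / t : ℕ) + (x' % t : ℕ) := by
      exact_mod_cast (Nat.div_add_mod x' t).symm
    have ey' : (y' : ℤ) = t * (y' / t : ℕ) + (y' % t : ℕ) := by
      exact_mod_cast (Nat.div_add_mod y' t).symm
    have lx := Nat.mod_lt x ht0
    have ly := Nat.mod_lt y ht0
    have lx' := Nat.mod_lt x' ht0
    have ly' := Nat.mod_lt y' ht0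
    have hrd : (t : ℤ) ∣ (2 * (x % t : ℕ) + (y % t : ℕ)) - (2 * (x' % t : ℕ) + (y' % t : ℕ)) := by
      have h1 : ((2 * (x % t) + y % t : ℕ) : ℤ) ≡ ((2 * (x' % t) + y' % t : ℕ) : ℤ) [ZMOD t] :=
        Int.natCast_modEq_iff.2 hr
      have h2 := h1.symm.dvd
      push_cast at h2
      exact_mod_cast h2
    generalize x / t = X at *
    generalize y / t = Y at *
    generalize x' / t = X' at *
    generalize y' / t = Y' at *
    generalize x % t = u at *
    generalize y % t = w at *
    generalize x' % t = u' at *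
    generalize y' % t = w' at *
    -- it suffices to show that the inner cells agree
    have fin : u = u' ∧ w = w' → x = x' ∧ y = y' := by
      rintro ⟨h1, h2⟩
      subst h1 h2
      have := hf2 X Y X' Y' hX hY hX' hY' hq (by
        have t0 : (t : ℤ) ≠ 0 := by exact_mod_cast ht0.ne'
        rcases hadj with h | h | h | h
        · left
          have h3 : (t : ℤ) * X = t * X' := by
            have : (x : ℤ) = x' := by exact_mod_cast h
            linarith
          exact_mod_cast mul_left_cancel₀ t0 h3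
        · right; left
          have h3 : (t : ℤ) * Y = t * Y' := by
            have : (y : ℤ) = y' := by exact_mod_cast h
            linarith
          exact_mod_cast mul_left_cancel₀ t0 h3
        · right; right; left
          apply mul_left_cancel₀ t0
          linarith
        · right; right; right
          apply mul_left_cancel₀ t0
          linarith)
      obtain ⟨rfl, rfl⟩ := this
      constructor
      · exact_mod_cast ex.trans ex'.symm
      · exact_mod_cast ey.trans ey'.symm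
    apply fin
    rcases hadj with h | h | h | h
    · -- same x
      have h0 : (x : ℤ) = x' := by exact_mod_cast h
      have h1 : u = u' := small _ _ lx lx' ⟨(X' : ℤ) - X, by linarith⟩
      subst h1
      refine ⟨rfl, small _ _ ly ly' ?_⟩
      have : ((2 * (u : ℤ) + w) - (2 * u + w')) = (w : ℤ) - w' := by ring
      rw [this] at hrd
      exact hrd
    · have h0 : (y : ℤ) = y' := by exact_mod_cast h
      have h1 : w = w' := small _ _ ly ly' ⟨(Y' : ℤ) - Y, by linarith⟩
      subst h1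
      refine ⟨small _ _ lx lx' ?_, rfl⟩
      have h2 : (t : ℤ) ∣ 2 * ((u : ℤ) - u') := by
        have : ((2 * (u : ℤ) + w) - (2 * u' + w)) = 2 * ((u : ℤ) - u') := by ring
        rwa [this] at hrd
      exact (ht2.symm).dvd_of_dvd_mul_left h2
    · -- x - x' = y - y'
      have h1 : (t : ℤ) ∣ ((u : ℤ) - u') - (w - w') :=
        ⟨(Y : ℤ) - Y' - X + X', by linarith⟩
      have h2 : (t : ℤ) ∣ 3 * ((u : ℤ) - u') := by
        have := dvd_add hrd h1
        have e : ((2 * (u : ℤ) + w) - (2 * u' + w')) + (((u : ℤ) - u') - (w - w'))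
            = 3 * ((u : ℤ) - u') := by ring
        rwa [e] at this
      have h3 : (t : ℤ) ∣ (u : ℤ) - u' := (ht3.symm).dvd_of_dvd_mul_left h2
      have h4 : (t : ℤ) ∣ (w : ℤ) - w' := by
        have := dvd_sub h3 h1
        have e : ((u : ℤ) - u') - (((u : ℤ) - u') - (w - w')) = (w : ℤ) - w' := by ring
        rwa [e] at this
      exact ⟨small _ _ lx lx' h3, small _ _ ly ly' h4⟩
    · have h1 : (t : ℤ) ∣ ((u : ℤ) - u') + (w - w') :=
        ⟨(Y' : ℤ) - Y - X + X', by linarith⟩
      have h3 : (t : ℤ) ∣ (u : ℤ) - u' := by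
        have := dvd_sub hrd h1
        have e : ((2 * (u : ℤ) + w) - (2 * u' + w')) - (((u : ℤ) - u') + (w - w'))
            = (u : ℤ) - u' := by ring
        rwa [e] at this
      have h4 : (t : ℤ) ∣ (w : ℤ) - w' := by
        have := dvd_sub h1 h3
        have e : (((u : ℤ) - u') + (w - w')) - ((u : ℤ) - u') = (w : ℤ) - w' := by ring
        rwa [e] at this
      exact ⟨small _ _ lx lx' h3, small _ _ ly ly' h4⟩

/-- Splitting off the part of `n` composed of primes dividing `L`. -/
theorem split (L : ℕ) (hL : Nat.Coprime L 6) : ∀ n : ℕ, 0 < n →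
    ∃ w u : ℕ, n = w * u ∧ Nat.Coprime u 6 ∧ Nat.Coprime w L := by
  intro n
  induction n using Nat.strong_induction_on with
  | _ n ih =>
    intro hn
    by_cases hc : Nat.Coprime n L
    · exact ⟨n, 1, by simp, by norm_num, hc⟩
    · obtain ⟨p, hp, hpn, hpL⟩ := Nat.Prime.not_coprime_iff_dvd.1 hc
      obtain ⟨k, rfl⟩ := hpn
      have hk : 0 < k := Nat.pos_of_mul_pos_left hn |> fun h => by
        rcases Nat.eq_zero_or_pos k with h0 | h0
        · subst h0; simp at hn
        · exact h0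
      have hlt : k < p * k := by nlinarith [hp.two_le]
      obtain ⟨w, u, h1, h2, h3⟩ := ih k hlt hk
      refine ⟨w, p * u, by rw [h1]; ring, ?_, h3⟩
      exact Nat.Coprime.mul_left (Nat.Coprime.coprime_dvd_left hpL hL) h2

/-- The reduction to boards whose order is coprime to `5 * 31 * 61` or to `13 * 79 * 157`. -/
theorem reduction (N : ℕ)
    (H1 : ∀ n : ℕ, N ≤ n → Nat.Coprime n (5 * 31 * 61) → Col n)
    (H2 : ∀ n : ℕ, N ≤ n → Nat.Coprime n (13 * 79 * 157) → Col n) :
    ∃ n₀ : ℕ, ∀ n : ℕ, n₀ ≤ n → Col n := by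
  refine ⟨N ^ 4 + 1, fun n hn => ?_⟩
  have hn0 : 0 < n := by omega
  have pp : ∀ p : ℕ, p.Prime → ∀ k : ℕ, 0 < k → ∃ e m : ℕ, ¬ p ∣ m ∧ k = p ^ e * m :=
    fun p hp k hk => by
      obtain ⟨e, m, h1, h2⟩ := Nat.exists_eq_pow_mul_and_not_dvd hk.ne' p hp.ne_one
      exact ⟨e, m, h1, h2⟩
  have p5 : Nat.Prime 5 := by norm_num
  have p31 : Nat.Prime 31 := by norm_num
  have p61 : Nat.Prime 61 := by norm_num
  obtain ⟨a, n1, h5, e1⟩ := pp 5 p5 n hn0
  have hn1 : 0 < n1 := Nat.pos_of_ne_zero (by rintro rfl; simp at h5)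
  obtain ⟨b, n2, h31, e2⟩ := pp 31 p31 n1 hn1
  have hn2 : 0 < n2 := Nat.pos_of_ne_zero (by rintro rfl; simp at h31)
  obtain ⟨c, n3, h61, e3⟩ := pp 61 p61 n2 hn2
  have hn3 : 0 < n3 := Nat.pos_of_ne_zero (by rintro rfl; simp at h61)
  have c5 : Nat.Coprime (5 ^ a) 6 := Nat.Coprime.pow_left _ (by norm_num)
  have c31 : Nat.Coprime (31 ^ b) 6 := Nat.Coprime.pow_left _ (by norm_num)
  have c61 : Nat.Coprime (61 ^ c) 6 := Nat.Coprime.pow_left _ (by norm_num)
  have hn3c : Nat.Coprime n3 (5 * 31 * 61) := by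
    have k5 : Nat.Coprime n3 5 := by
      rw [Nat.coprime_comm, Nat.Prime.coprime_iff_not_dvd p5]
      intro hd
      exact h5 (by rw [e2, e3]; exact Dvd.dvd.mul_left (Dvd.dvd.mul_left hd _) _)
    have k31 : Nat.Coprime n3 31 := by
      rw [Nat.coprime_comm, Nat.Prime.coprime_iff_not_dvd p31]
      intro hd
      exact h31 (by rw [e3]; exact Dvd.dvd.mul_left hd _)
    have k61 : Nat.Coprime n3 61 := by
      rw [Nat.coprime_comm, Nat.Prime.coprime_iff_not_dvd p61]
      exact h61
    exact Nat.Coprime.mul_right (Nat.Coprime.mul_right k5 k31) k61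
  -- if a prime power is large
  have big : ∀ P R : ℕ, n = P * R → N ≤ P → Nat.Coprime P (13 * 79 * 157) → Col n := by
    intro P R hPR hP hcop
    have hR : 0 < R := Nat.pos_of_ne_zero (by rintro rfl; simp at hPR; omega)
    obtain ⟨w, u, h1, h2, h3⟩ := split (13 * 79 * 157) (by norm_num) R hR
    have hw : 0 < w := Nat.pos_of_ne_zero (by rintro rfl; simp at h1; omega)
    have := (H2 (P * w) (hP.trans (Nat.le_mul_of_pos_right _ hw))
      (Nat.Coprime.mul_left hcop h3)).mul h2
    have e : n = P * w * u := by rw [hPR, h1]; ring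
    rw [e]; exact this
  by_cases hbig : N ≤ n3
  · have h := (H1 n3 hbig hn3c).mul (Nat.Coprime.mul_left (Nat.Coprime.mul_left c5 c31) c61)
    have e : n = n3 * (5 ^ a * 31 ^ b * 61 ^ c) := by rw [e1, e2, e3]; ring
    rw [e]; exact h
  · by_cases k1 : N ≤ 5 ^ a
    · exact big (5 ^ a) n1 e1 k1 (Nat.Coprime.pow_left _ (by norm_num))
    · by_cases k2 : N ≤ 31 ^ b
      · exact big (31 ^ b) (5 ^ a * n2) (by rw [e1, e2]; ring) k2
          (Nat.Coprime.pow_left _ (by norm_num))
      · by_cases k3 : N ≤ 61 ^ c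
        · exact big (61 ^ c) (5 ^ a * 31 ^ b * n3) (by rw [e1, e2, e3]; ring) k3
            (Nat.Coprime.pow_left _ (by norm_num))
        · exfalso
          push Not at hbig k1 k2 k3
          have hlt : n ≤ N ^ 4 := by
            have e : n = 5 ^ a * 31 ^ b * 61 ^ c * n3 := by rw [e1, e2, e3]; ring
            rw [e]
            calc 5 ^ a * 31 ^ b * 61 ^ c * n3 ≤ N * N * N * N :=
                  Nat.mul_le_mul (Nat.mul_le_mul (Nat.mul_le_mul k1.le k2.le) k3.le) hbig.le
              _ = N ^ 4 := by ring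
          omega

end Pool.Agent.W_MP_5f6f90_co_helper62
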